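import Pool.Agent.H59.FH.Fin
import Pool.Agent.H59.PO.Top

/-! # [H59 FI Top] one prime at a time -/

set_option autoImplicit false

namespace Pool.Agent.H59.FI

open Pool.Agent.H59.PO Pool.Agent.H59.FE Pool.Agent.H59.FH Pool.Agent.H76.MB

universe u

variable {G : Type u} [Group G]

/-- the elements of `q`-power order lie in the locally finite radical -/
theorem one {p : ℕ} {φ : MulAut G} (hS : Spl p φ) (h2 : Hyp φ 2 3) {q : ℕ} (hq : q.Prime)
    (h3 : q = 3 → p ≠ 5 → Hyp φ 3 5) (h5 : 5 ≤ q → Hyp φ q 2) :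
    ∀ (n : ℕ) (g : G), g ^ q ^ n = 1 → g ∈ rad G := by
  have r2 := rad2 hS h2
  intro n g hg
  rcases Nat.lt_or_ge q 5 with hq5 | hq5
  · have h23 : q = 2 ∨ q = 3 := by
      have h1 := hq.two_le
      have h4 : q ≠ 4 := by rintro rfl; revert hq; decide
      omega
    rcases h23 with rfl | rfl
    · exact r2 n g hg
    · apply rad3' hS r2 ?_ n g hg
      by_cases hp : p = 5
      · subst hp
        exact hyp_five hS
      · exact h3 rfl hp
  · exact rad5 hS r2 hq (by omega) (h5 hq5) n g hg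

theorem main {p : ℕ} {φ : MulAut G} (hS : Spl p φ) (h2 : Hyp φ 2 3) {q : ℕ} (hq : q.Prime)
    (h3 : q = 3 → p ≠ 5 → Hyp φ 3 5) (h5 : 5 ≤ q → Hyp φ q 2) (s : Finset G)
    (hs : ∀ x ∈ s, ∃ e : ℕ, x ^ q ^ e = 1) :
    Finite (Subgroup.closure (s : Set G)) ∧ IsPGroup q (Subgroup.closure (s : Set G)) :=
  qpart hS hq (one hS h2 hq h3 h5) s hs

end Pool.Agent.H59.FI
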